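import Pool.Agent.N709.UM.Stm

/-!
# UM/CMP: compactness of the set of values of short words (helper720, project UM of helper709)
-/

set_option autoImplicit false

open Filter Topology
open scoped Pointwise

universe u

namespace Pool.Agent.N720.UM

open Pool.Agent.N709.UM

variable {G : Type u} [Group G]

theorem PN.nonneg {ρ : G → ℝ} (h : PN ρ) (g : G) : 0 ≤ ρ g := by
  have h1 := h.mul g g⁻¹
  rw [mul_inv_cancel, h.one, h.inv] at h1
  linarith

theorem rw_nil (ρ : G → ℝ) : Pool.Agent.N709.UM.rw ρ ([] : List (G ⊕ (ℕ × Bool))) = 0 := rfl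

theorem rw_inl (ρ : G → ℝ) (v : G) (w : List (G ⊕ (ℕ × Bool))) :
    Pool.Agent.N709.UM.rw ρ (Sum.inl v :: w) = ρ v + Pool.Agent.N709.UM.rw ρ w := rfl

theorem rw_inr (ρ : G → ℝ) (j : ℕ) (s : Bool) (w : List (G ⊕ (ℕ × Bool))) :
    Pool.Agent.N709.UM.rw ρ (Sum.inr (j, s) :: w) = Pool.Agent.N709.UM.rw ρ w := by
  show (0 : ℝ) + wt ρ (fun _ => 0) w = _
  rw [zero_add]
  rfl

theorem rw_nonneg {ρ : G → ℝ} (h : PN ρ) (w : List (G ⊕ (ℕ × Bool))) :
    0 ≤ Pool.Agent.N709.UM.rw ρ w := by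
  induction w with
  | nil => exact le_of_eq (rw_nil ρ).symm
  | cons a w ih =>
    rcases a with v | ⟨j, s⟩
    · rw [rw_inl]
      have := PN.nonneg h v
      linarith
    · rw [rw_inr]
      exact ih

/-- the compact sets -/
def E (K Y : Set G) : ℕ → Set G
  | 0 => K
  | n + 1 => E K Y n ∪ K * Y * E K Y n

theorem E_compact [TopologicalSpace G] [IsTopologicalGroup G] {K Y : Set G} (hK : IsCompact K)
    (hY : IsCompact Y) (n : ℕ) : IsCompact (E K Y n) := by
  induction n with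
  | zero => exact hK
  | succ n ih => exact ih.union ((hK.mul hY).mul ih)

theorem K_sub (K Y : Set G) (n : ℕ) : K ⊆ E K Y n := by
  induction n with
  | zero => exact subset_rfl
  | succ n ih => exact ih.trans Set.subset_union_left

theorem mem_E {ρ : G → ℝ} (hρ : PN ρ) (r : ℝ) (y : ℕ → G) (k : ℕ) (K Y : Set G)
    (hK : ∀ g, ρ g < r → g ∈ K) (hY : ∀ j, j < k → y j ∈ Y ∧ (y j)⁻¹ ∈ Y)
    (w : List (G ⊕ (ℕ × Bool))) :
    ∀ (n : ℕ) (u : G), Bel k w → cnt k w ≤ n → ρ u + Pool.Agent.N709.UM.rw ρ w < r →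
      u * ev y w ∈ E K Y n := by
  induction w with
  | nil =>
    intro n u _ _ h
    rw [rw_nil, add_zero] at h
    show u * 1 ∈ _
    rw [mul_one]
    exact K_sub K Y n (hK u h)
  | cons a w ih =>
    intro n u hB hc h
    have hB' : Bel k w := fun j s hjs => hB j s (List.mem_cons_of_mem _ hjs)
    rcases a with v | ⟨j, s⟩
    · rw [rw_inl] at h
      show u * (v * ev y w) ∈ _
      rw [← mul_assoc]
      refine ih n (u * v) hB' hc ?_
      have := hρ.mul u v
      linarith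
    · rw [rw_inr] at h
      have hj : j < k := hB j s (List.mem_cons_self)
      have hc' : 1 + cnt k w ≤ n := by
        have h1 : cnt k ((Sum.inr (j, s) : G ⊕ (ℕ × Bool)) :: w) = (if j ≤ k then 1 else 0) + cnt k w := rfl
        rw [h1, if_pos hj.le] at hc
        exact hc
      obtain ⟨n', rfl⟩ : ∃ n', n = n' + 1 := ⟨n - 1, by omega⟩
      have h2 := rw_nonneg hρ w
      have h3 := PN.nonneg hρ u
      have hu : u ∈ K := hK u (by linarith)
      have h4 : 1 * ev y w ∈ E K Y n' := ih n' 1 hB' (by omega) (by rw [hρ.one]; linarith)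
      rw [one_mul] at h4
      show u * ((if s then y j else (y j)⁻¹) * ev y w) ∈ _
      rw [← mul_assoc]
      refine Or.inr (Set.mul_mem_mul (Set.mul_mem_mul hu ?_) h4)
      split_ifs
      · exact (hY j hj).1
      · exact (hY j hj).2

theorem cmp : Pool.Agent.N709.UM.Cmp.{u} := by
  intro G _ _ _ ρ hρ r hr y k C hC
  obtain ⟨Y, hYf, hY⟩ : ∃ Y : Set G, Y.Finite ∧ ∀ j, j < k → y j ∈ Y ∧ (y j)⁻¹ ∈ Y :=
    ⟨((fun j => y j) '' Set.Iio k) ∪ ((fun j => (y j)⁻¹) '' Set.Iio k),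
      ((Set.finite_Iio k).image _).union ((Set.finite_Iio k).image _),
      fun j hj => ⟨Or.inl ⟨j, hj, rfl⟩, Or.inr ⟨j, hj, rfl⟩⟩⟩
  refine ⟨E (closure {g : G | ρ g < r}) Y k * C, (E_compact hr hYf.isCompact k).mul hC, ?_⟩
  intro w hB hc hw c hcC
  refine Set.mul_mem_mul ?_ hcC
  have h1 := mem_E hρ r y k (closure {g : G | ρ g < r}) Y (fun g hg => subset_closure hg) hY
    w k 1 hB hc (by rw [hρ.one, zero_add]; exact hw)
  rwa [one_mul] at h1

end Pool.Agent.N720.UM
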